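import Pool.Agent.W466.FE.LocC

/-! # The local form of the summand: conclusion -/

set_option autoImplicit false

namespace Pool.Agent.W466.FE

open Filter Finset EvenVol Pool.Agent.H112R4.VL Pool.Agent.W709.VC Pool.Agent.W707.FE
open scoped Real Topology Nat

lemma bound_Gf (hGP : S_GP) {Q : Set ℂ} (hQ : Q ⊆ Uf) (hc : IsCompact Q) :
    ∃ B : ℝ, 0 ≤ B ∧ ∀ w ∈ Q, ‖Gf w‖ ≤ B := by
  obtain ⟨B, hB⟩ := hc.exists_bound_of_continuousOn (hGP.2.1.continuousOn.mono hQ)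
  exact ⟨max B 0, le_max_right _ _, fun w hw => (hB w hw).trans (le_max_left _ _)⟩

lemma exp_neg_bound {η : ℝ} (hη : 0 < η) (K : ℕ) {N : ℕ} (hN : 0 < N) :
    Real.exp (-(N * η)) ≤ (K ! : ℝ) / η ^ K * ((N : ℝ)⁻¹) ^ K := by
  have hN' : (0 : ℝ) < N := by exact_mod_cast hN
  have hx : 0 < N * η := by positivity
  have h1 := Real.pow_div_factorial_le_exp (N * η) hx.le K
  rw [Real.exp_neg, inv_pow]
  have h2 : (0 : ℝ) < (N * η) ^ K / K ! := by positivity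
  have h3 := inv_anti₀ h2 h1
  refine h3.trans (le_of_eq ?_)
  rw [inv_div, mul_pow]
  field_simp

theorem loc (hEM : S_EM) (hGP : S_GP) : Pool.Agent.W707.FE.S_LOC := by
  intro A α₀ b₀ η hA hC
  obtain ⟨b₁, hb₁⟩ := hEM 1 zero_le_one le_rfl
  obtain ⟨b₂, hb₂⟩ := hEM (1 / 2) (by norm_num) (by norm_num)
  have hα0 := hC.hα
  have hb0 := hC.hb
  have hη := hC.hη
  have hαb := hC.hαb
  have hπ := Real.pi_pos
  have hπ3 := Real.pi_gt_three
  -- the radius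
  obtain ⟨ρ, hρ0, hρ1, hρ2, hρ3⟩ : ∃ ρ : ℝ, 0 < ρ ∧ ρ ≤ 1 ∧ ρ ≤ α₀ / 2 ∧ ρ ≤ (π - α₀) / 2 :=
    ⟨min 1 (min (α₀ / 2) ((π - α₀) / 2)), lt_min one_pos (lt_min (by linarith) (by linarith)),
      min_le_left _ _, (min_le_right _ _).trans (min_le_left _ _),
      (min_le_right _ _).trans (min_le_right _ _)⟩
  refine ⟨b₁, b₂, ρ, hρ0, fun K => ?_⟩
  obtain ⟨C₁, hC₁, hE₁⟩ := hb₁ K
  obtain ⟨C₂, hC₂, hE₂⟩ := hb₂ K
  -- compact sets
  let Q₁ : Set ℂ := Set.Icc (-(π - α₀ / 4)) (π - α₀ / 4) ×ℂ Set.Icc (-1) 1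
  let Q₂ : Set ℂ := Set.Icc (-(4 * π)) (4 * π) ×ℂ Set.Icc (η / 2) (3 * η / 2)
  have hQ₁ : Q₁ ⊆ Uf := by
    intro w hw
    rw [Complex.mem_reProdIm] at hw
    right
    rw [abs_lt]
    exact ⟨by linarith [hw.1.1], by linarith [hw.1.2]⟩
  have hQ₂ : Q₂ ⊆ Uf := by
    intro w hw
    rw [Complex.mem_reProdIm] at hw
    left
    linarith [hw.2.1]
  obtain ⟨B₁, hB₁0, hB₁⟩ := bound_Gf hGP hQ₁ (isCompact_Icc.reProdIm isCompact_Icc)
  obtain ⟨B₂, hB₂0, hB₂⟩ := bound_Gf hGP hQ₂ (isCompact_Icc.reProdIm isCompact_Icc)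
  obtain ⟨σ, hσ0, hσ1, hσ2, hσ3⟩ : ∃ σ : ℝ, 0 < σ ∧ σ ≤ 1 ∧ σ ≤ α₀ / 4 ∧ σ ≤ η / 2 :=
    ⟨min 1 (min (α₀ / 4) (η / 2)), lt_min one_pos (lt_min (by linarith) (by linarith)),
      min_le_left _ _, (min_le_right _ _).trans (min_le_left _ _),
      (min_le_right _ _).trans (min_le_right _ _)⟩
  obtain ⟨BH, hBH0, hBH⟩ := HK_bound hGP b₁ b₂ K (α₀ := α₀) (b₀ := b₀) (η := η) (ρ := ρ) hη
    (by linarith) (by linarith)
  let CU : ℝ := (2 * (C₁ * B₁) + 2 * (C₂ * B₂)) * (2 * π / σ) ^ (K + 1)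
  have hCU0 : 0 ≤ CU := by positivity
  let CR : ℝ := 16 * (CU * Real.exp CU) + 240 * ((K ! : ℝ) / η ^ K)
  have hCR0 : 0 ≤ CR := by positivity
  refine ⟨1 / (4 * π ^ 2) * (BH * CR), ?_⟩
  have ev1 : ∀ᶠ N : ℕ in atTop, 2 * π / (N : ℝ) < σ / 4 :=
    (tendsto_const_div_atTop_nhds_zero_nat (2 * π)).eventually (gt_mem_nhds (by positivity))
  have ev2 : ∀ᶠ N : ℕ in atTop, 1 / η / (N : ℝ) < 1 :=
    (tendsto_const_div_atTop_nhds_zero_nat (1 / η)).eventually (gt_mem_nhds one_pos)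
  filter_upwards [ev1, ev2, eventually_ge_atTop 1] with N hN1 hN2 hN3 d hdα x y hx hy
  have hN : 0 < N := hN3
  have hN' : (0 : ℝ) < N := by exact_mod_cast hN
  have hNinv : (N : ℝ)⁻¹ ≤ 1 := inv_le_one_of_one_le₀ (by exact_mod_cast hN3)
  set ε : ℝ := 2 * π / N with hε
  have hε0 : 0 < ε := by positivity
  set α : ℝ := 2 * π * d / N with hα
  have hdα' := abs_le.1 hdα
  have hα1 : α₀ / 2 ≤ α := by linarith [hdα'.1]
  have hα2 : α < π := by linarith [hdα'.2]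
  have hd0 : 0 < d := by
    rcases Nat.eq_zero_or_pos d with h0 | h0
    · exfalso
      rw [hα, h0] at hα1
      simp at hα1
      linarith
    · exact h0
  have h2d : 2 * d < N := by
    have h3 : (2 * d : ℝ) < N := by
      rw [hα, div_lt_iff₀ hN'] at hα2
      nlinarith
    exact_mod_cast h3
  have hal : al N d = (α : ℂ) := rfl
  have hep : ep N = (ε : ℂ) := rfl
  have hαε : (d : ℝ) * ε = α := by rw [hε, hα]; ring
  have hNε : (N : ℝ) * ε = 2 * π := by rw [hε]; field_simp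
  -- the points
  set ψ : ℂ := -(b₀ : ℂ) + η * Complex.I + x with hψ
  set χ : ℂ := (b₀ : ℂ) + η * Complex.I + y with hχ
  have hψi : ψ.im = η := by rw [hψ]; simp
  have hχi : χ.im = η := by rw [hχ]; simp
  have hψr : ψ.re = -b₀ + x := by rw [hψ]; simp
  have hχr : χ.re = b₀ + y := by rw [hχ]; simp
  have e1 : (-(b₀ : ℂ) + x + η * Complex.I) = ψ := by rw [hψ]; ring
  have e2 : (-(b₀ : ℂ) - y + η * Complex.I) = -(starRingEnd ℂ) χ := by
    rw [hχ]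
    simp only [map_add, map_mul, Complex.conj_ofReal, Complex.conj_I]
    ring
  rw [e1, e2]
  have hid := main_id hGP A hd0 h2d (ψ := ψ) (χ := χ) (by rw [hψi]; exact hη)
    (by rw [hχi]; exact hη) b₁ b₂ K
  rw [hid, hal, hep]
  -- errors
  have hx' := abs_le.1 hx
  have hy' := abs_le.1 hy
  have hn1 : (((N - 2 * d : ℕ) : ℝ)) = N - 2 * d := by
    have h3 : N - 2 * d + 2 * d = N := by omega
    have h4 : ((N - 2 * d + 2 * d : ℕ) : ℝ) = N := by exact_mod_cast h3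
    push_cast at h4
    linarith
  have hn1ε : (((N - 2 * d : ℕ) : ℝ)) * ε = 2 * π - 2 * α := by
    rw [hn1, ← hαε, ← hNε]; ring
  have hn2ε : (((2 * d : ℕ) : ℝ)) * ε = 2 * α := by
    push_cast
    rw [← hαε]; ring
  have hσε : 4 * ε ≤ σ := by linarith
  have hpow : ∀ (n : ℕ) (C B : ℝ), 0 ≤ C → 0 ≤ B → (n : ℝ) ≤ N →
      C * (n * B * (ε / σ) ^ (K + 1)) ≤ (C * B) * ((2 * π / σ) ^ (K + 1) * ((N : ℝ)⁻¹) ^ K) := by
    intro n C B hC0 hB0 hn
    have h3 : (ε / σ) ^ (K + 1) = (2 * π / σ) ^ (K + 1) * ((N : ℝ)⁻¹) ^ K * (N : ℝ)⁻¹ := by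
      have h4 : ε / σ = (2 * π / σ) * (N : ℝ)⁻¹ := by rw [hε]; ring
      rw [h4, mul_pow, pow_succ ((N : ℝ)⁻¹)]
      ring
    have h5 : (n : ℝ) * (N : ℝ)⁻¹ ≤ 1 := by
      rw [← div_eq_mul_inv, div_le_one hN']
      exact hn
    rw [h3]
    have h6 : 0 ≤ (C * B) * ((2 * π / σ) ^ (K + 1) * ((N : ℝ)⁻¹) ^ K) := by positivity
    calc C * (n * B * ((2 * π / σ) ^ (K + 1) * ((N : ℝ)⁻¹) ^ K * (N : ℝ)⁻¹)) =
        (C * B) * ((2 * π / σ) ^ (K + 1) * ((N : ℝ)⁻¹) ^ K) * (n * (N : ℝ)⁻¹) := by ring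
      _ ≤ (C * B) * ((2 * π / σ) ^ (K + 1) * ((N : ℝ)⁻¹) ^ K) * 1 :=
          mul_le_mul_of_nonneg_left h5 h6
      _ = _ := mul_one _
  have hErr1 : ‖E1 b₁ K N d‖ ≤ (C₁ * B₁) * ((2 * π / σ) ^ (K + 1) * ((N : ℝ)⁻¹) ^ K) := by
    refine le_trans ?_ (hpow (N - 2 * d) C₁ B₁ hC₁ hB₁0 ?_)
    · refine em_use hGP hE₁ hQ₁ hB₁ hε0 hσε ?_ ?_
      · rw [hal]
        have : (((N - 2 * d : ℕ) : ℂ)) * (ε : ℂ) = 2 * π - 2 * α := by
          exact_mod_cast hn1ε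
        rw [this]; ring
      · intro t ht0 ht1 w hw
        rw [hn1ε] at ht1
        rw [hal] at hw
        have hre := (Complex.abs_re_le_norm (w - (((α : ℂ) - π) + t))).trans_lt hw
        have him := (Complex.abs_im_le_norm (w - (((α : ℂ) - π) + t))).trans_lt hw
        have r1 : (w - (((α : ℂ) - π) + t)).re = w.re - (α - π + t) := by simp
        have r2 : (w - (((α : ℂ) - π) + t)).im = w.im := by simp
        rw [r1, abs_lt] at hre
        rw [r2, abs_lt] at him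
        rw [Complex.mem_reProdIm]
        refine ⟨⟨?_, ?_⟩, ?_, ?_⟩ <;> linarith [hre.1, hre.2, him.1, him.2]
    · rw [hn1]
      have : (0 : ℝ) ≤ d := Nat.cast_nonneg d
      linarith
  have hErr2 : ∀ z : ℂ, z.im = η → |z.re| ≤ π + 1 →
      ‖E2 b₂ K N d z‖ ≤ (C₂ * B₂) * ((2 * π / σ) ^ (K + 1) * ((N : ℝ)⁻¹) ^ K) := by
    intro z hzi hzr
    have hzr' := abs_le.1 hzr
    refine le_trans ?_ (hpow (2 * d) C₂ B₂ hC₂ hB₂0 (by exact_mod_cast h2d.le))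
    refine em_use hGP hE₂ hQ₂ hB₂ hε0 hσε ?_ ?_
    · rw [hal]
      have : (((2 * d : ℕ) : ℂ)) * (ε : ℂ) = 2 * α := by
        exact_mod_cast hn2ε
      rw [this]; ring
    · intro t ht0 ht1 w hw
      rw [hn2ε] at ht1
      rw [hal] at hw
      have hre := (Complex.abs_re_le_norm (w - ((z - (α : ℂ)) + t))).trans_lt hw
      have him := (Complex.abs_im_le_norm (w - ((z - (α : ℂ)) + t))).trans_lt hw
      have r1 : (w - ((z - (α : ℂ)) + t)).re = w.re - (z.re - α + t) := by simp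
      have r2 : (w - ((z - (α : ℂ)) + t)).im = w.im - η := by simp [hzi]
      rw [r1, abs_lt] at hre
      rw [r2, abs_lt] at him
      rw [Complex.mem_reProdIm]
      refine ⟨⟨?_, ?_⟩, ?_, ?_⟩ <;> linarith [hre.1, hre.2, him.1, him.2, hzr'.1, hzr'.2]
  have hb0π : b₀ < π := by linarith
  have hErrψ := hErr2 ψ hψi (by rw [hψr, abs_le]; constructor <;> linarith [hx'.1, hx'.2])
  have hErrχ := hErr2 χ hχi (by rw [hχr, abs_le]; constructor <;> linarith [hy'.1, hy'.2])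
  set P : ℝ := ((N : ℝ)⁻¹) ^ K with hP
  have hP0 : 0 ≤ P := by positivity
  have hP1 : P ≤ 1 := pow_le_one₀ (by positivity) hNinv
  have hu : ‖2 * E1 b₁ K N d + E2 b₂ K N d ψ + E2 b₂ K N d χ‖ ≤ CU * P := by
    refine (norm_add_le _ _).trans ((add_le_add_left (norm_add_le _ _) _).trans ?_)
    rw [norm_mul]
    have h2 : ‖(2 : ℂ)‖ = 2 := by simp
    rw [h2]
    calc 2 * ‖E1 b₁ K N d‖ + ‖E2 b₂ K N d ψ‖ + ‖E2 b₂ K N d χ‖ ≤
        2 * ((C₁ * B₁) * ((2 * π / σ) ^ (K + 1) * P)) +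
        (C₂ * B₂) * ((2 * π / σ) ^ (K + 1) * P) + (C₂ * B₂) * ((2 * π / σ) ^ (K + 1) * P) := by
          linarith
      _ = CU * P := by simp only [CU]; ring
  have hu' : ‖2 * E1 b₁ K N d + E2 b₂ K N d ψ + E2 b₂ K N d χ‖ ≤ CU :=
    hu.trans (by nlinarith)
  -- the exponentials
  have hs1 : ‖Complex.exp (Complex.I * (N * (ψ + π)))‖ ≤ Real.exp (-(N * η)) := by
    rw [Complex.norm_exp]
    apply le_of_eq
    congr 1
    have : (Complex.I * (N * (ψ + π))).re = -(N * ψ.im) := by simp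
    rw [this, hψi]
  have hs2 : ‖Complex.exp (Complex.I * (N * (χ - π)))‖ ≤ Real.exp (-(N * η)) := by
    rw [Complex.norm_exp]
    apply le_of_eq
    congr 1
    have : (Complex.I * (N * (χ - π))).re = -(N * χ.im) := by simp
    rw [this, hχi]
  have hs3 : Real.exp (-(N * η)) ≤ 1 / 2 := by
    have h3 : 1 < N * η := by
      rw [div_div, div_lt_one (by positivity)] at hN2
      linarith
    have h4 : N * η + 1 ≤ Real.exp (N * η) := Real.add_one_le_exp _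
    rw [Real.exp_neg, inv_le_comm₀ (Real.exp_pos _) (by norm_num)]
    norm_num
    linarith
  have hR := R_bound hu' hs1 hs2 hs3
  have hR' : 16 * (‖2 * E1 b₁ K N d + E2 b₂ K N d ψ + E2 b₂ K N d χ‖ * Real.exp CU) +
      240 * Real.exp (-(N * η)) ≤ CR * P := by
    have h3 := exp_neg_bound hη K hN
    have h4 := mul_le_mul_of_nonneg_right hu (Real.exp_pos CU).le
    calc _ ≤ 16 * (CU * P * Real.exp CU) + 240 * ((K ! : ℝ) / η ^ K * P) := by linarith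
      _ = CR * P := by simp only [CR]; ring
  -- conclusion
  have hfin : ∀ a m r : ℂ, a * m * r - a * m = a * m * (r - 1) := fun a m r => by ring
  rw [hfin, norm_mul, norm_mul, norm_mul]
  have hn2 : ‖((N : ℂ) / (2 * π)) ^ 2‖ = (N : ℝ) ^ 2 * (1 / (4 * π ^ 2)) := by
    have h3 : ((N : ℂ) / (2 * π)) = ((N / (2 * π) : ℝ) : ℂ) := by push_cast; rfl
    rw [h3, ← Complex.ofReal_pow, Complex.norm_real, Real.norm_eq_abs,
      abs_of_nonneg (by positivity)]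
    field_simp
    ring
  have hne : ‖Complex.exp ((N : ℂ) / (2 * π) * Wf A ((α : ℂ), ψ, χ))‖ =
      Real.exp ((N : ℝ) / (2 * π) * (Wf A ((α : ℂ), ψ, χ)).re) := by
    rw [Complex.norm_exp]
    congr 1
    have h3 : ((N : ℂ) / (2 * π)) = ((N / (2 * π) : ℝ) : ℂ) := by push_cast; rfl
    rw [h3, Complex.re_ofReal_mul]
  rw [hn2, hne]
  have hHK := hBH ε α x y hε0.le (by linarith) hdα hx hy
  set W := Real.exp ((N : ℝ) / (2 * π) * (Wf A ((α : ℂ), ψ, χ)).re)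
  have hW : 0 < W := Real.exp_pos _
  have h7 := hR.trans hR'
  calc (N : ℝ) ^ 2 * (1 / (4 * π ^ 2)) * (W * ‖HK b₁ b₂ K ((ε : ℂ), (α : ℂ), ψ, χ)‖) *
        ‖Complex.exp (2 * E1 b₁ K N d + E2 b₂ K N d ψ + E2 b₂ K N d χ) /
      ((1 + Complex.exp (Complex.I * (N * (ψ + π)))) ^ 2 *
        (1 + Complex.exp (Complex.I * (N * (χ - π)))) ^ 2) - 1‖ ≤
      (N : ℝ) ^ 2 * (1 / (4 * π ^ 2)) * (W * BH) * (CR * P) := by
        apply mul_le_mul _ h7 (norm_nonneg _) (by positivity)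
        apply mul_le_mul_of_nonneg_left _ (by positivity)
        exact mul_le_mul_of_nonneg_left hHK hW.le
    _ = _ := by ring

end Pool.Agent.W466.FE
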