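import Pool.Agent.W707.FE.B
import Pool.Agent.W540.VC.BrfA

/-! # The local form of the summand: algebraic identities -/

set_option autoImplicit false

namespace Pool.Agent.W466.FE

open Filter Finset EvenVol Pool.Agent.H112R4.VL Pool.Agent.W709.VC Pool.Agent.W707.FE
open scoped Real Topology

/-- the factors -/
noncomputable def sj (N j : ℕ) : ℝ := 2 * Real.sin (π * ((j + 1 : ℕ) : ℝ) / N)

lemma sj_pos {N j : ℕ} (h : j + 1 < N) : 0 < sj N j := by
  have hN : (0 : ℝ) < N := by exact_mod_cast (by omega : 0 < N)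
  have hj : (((j + 1 : ℕ) : ℝ)) < N := by exact_mod_cast h
  have : 0 < Real.sin (π * ((j + 1 : ℕ) : ℝ) / N) := by
    apply Real.sin_pos_of_pos_of_lt_pi
    · positivity
    · rw [div_lt_iff₀ hN]
      exact mul_lt_mul_of_pos_left hj Real.pi_pos
  unfold sj
  positivity

lemma norm_brf_eq {N n : ℕ} (hn : n < N) : ‖brf (v0 N) n‖ = ∏ j ∈ range n, sj N j := by
  unfold brf
  rw [norm_prod]
  refine Finset.prod_congr rfl fun j hj => ?_
  rw [Finset.mem_range] at hj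
  rw [Pool.Agent.W540.VC.norm_br]
  have h1 : (2 * Real.sin (π * (((j : ℤ) + 1 : ℤ) : ℝ) / N)) = sj N j := by
    unfold sj; push_cast; rfl
  rw [h1, abs_of_pos (sj_pos (by omega))]

lemma prod_sj {N : ℕ} (hN : 1 ≤ N) : ∏ j ∈ range (N - 1), sj N j = N :=
  GapVol.prod_sin N hN

lemma sj_symm {N d i : ℕ} (hi : i < d) (hd : d < N) : sj N (N - 1 - d + i) = sj N (d - 1 - i) := by
  have hN : (0 : ℝ) < N := by exact_mod_cast (by omega : 0 < N)
  unfold sj
  have h1 : ((N - 1 - d + i + 1 : ℕ) : ℝ) = N - ((d - 1 - i + 1 : ℕ) : ℝ) := by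
    have h0 : N - 1 - d + i + 1 + (d - 1 - i + 1) = N := by omega
    have h2 : ((N - 1 - d + i + 1 : ℕ) : ℝ) + ((d - 1 - i + 1 : ℕ) : ℝ) = N := by
      exact_mod_cast h0
    linarith
  rw [h1]
  have h2 : π * ((N : ℝ) - ((d - 1 - i + 1 : ℕ) : ℝ)) / N = π - π * ((d - 1 - i + 1 : ℕ) : ℝ) / N := by
    field_simp
  rw [h2, Real.sin_pi_sub]

/-- the middle part of the product -/
noncomputable def Mf (N d : ℕ) : ℝ := ∏ i ∈ range (N - 1 - 2 * d), sj N (d + i)

lemma kk_eq {N d : ℕ} (h : 2 * d < N) : kk N d = N * Mf N d := by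
  unfold kk
  rw [norm_brf_eq (by omega : N - 1 - d < N)]
  have h1 : ∏ j ∈ range (N - 1 - d), sj N j = (∏ j ∈ range d, sj N j) * Mf N d := by
    have : N - 1 - d = d + (N - 1 - 2 * d) := by omega
    rw [this, Finset.prod_range_add]
    rfl
  have h2 : (N : ℝ) = (∏ j ∈ range (N - 1 - d), sj N j) * ∏ j ∈ range d, sj N j := by
    rw [← prod_sj (by omega : 1 ≤ N)]
    have : N - 1 = N - 1 - d + d := by omega
    conv_lhs => rw [this, Finset.prod_range_add]
    congr 1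
    rw [← Finset.prod_range_reflect (fun j => sj N j) d]
    refine Finset.prod_congr rfl fun i hi => ?_
    rw [Finset.mem_range] at hi
    exact sj_symm hi (by omega)
  rw [pow_two]
  conv_lhs => rw [h1]
  conv_rhs => rw [h2, h1]
  ring

/-- a sine as a cosine -/
lemma sj_cos (N d i : ℕ) (hN : 0 < N) : ((sj N (d + i) : ℝ) : ℂ) =
    2 * Complex.cos (((((2 * π * d / N : ℝ) : ℂ) - π) +
      ((2 * π / N : ℝ) : ℂ) * ((i : ℂ) + ((1 : ℝ) : ℂ))) / 2) := by
  have hN' : (N : ℂ) ≠ 0 := by exact_mod_cast hN.ne'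
  unfold sj
  rw [Complex.ofReal_mul, Complex.ofReal_sin, ← Complex.cos_pi_div_two_sub]
  congr 1
  rw [← Complex.cos_neg]
  congr 1
  push_cast
  field_simp
  ring

/-- the last factor -/
lemma sj_last {N d : ℕ} (h : 2 * d < N) : sj N (d + (N - 1 - 2 * d)) =
    2 * Real.sin ((2 * π * d / N) / 2) := by
  have hN : (0 : ℝ) < N := by exact_mod_cast (by omega : 0 < N)
  unfold sj
  have h1 : ((d + (N - 1 - 2 * d) + 1 : ℕ) : ℝ) = N - d := by
    have : d + (N - 1 - 2 * d) + 1 + d = N := by omega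
    have h2 : ((d + (N - 1 - 2 * d) + 1 + d : ℕ) : ℝ) = N := by exact_mod_cast this
    push_cast at h2 ⊢
    linarith
  rw [h1]
  have h2 : π * ((N : ℝ) - d) / N = π - (2 * π * d / N) / 2 := by
    field_simp
  rw [h2, Real.sin_pi_sub]

lemma Mf_exp (hGP : S_GP) {N d : ℕ} (h : 2 * d < N) (hd : 0 < d) :
    ((Mf N d : ℝ) : ℂ) * (2 * Complex.sin (((2 * π * d / N : ℝ) : ℂ) / 2)) =
    Complex.exp (∑ i ∈ range (N - 2 * d), Gf ((((2 * π * d / N : ℝ) : ℂ) - π) +
      ((2 * π / N : ℝ) : ℂ) * ((i : ℂ) + ((1 : ℝ) : ℂ)))) := by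
  have hN : (0 : ℝ) < N := by exact_mod_cast (by omega : 0 < N)
  rw [Complex.exp_sum]
  have h1 : ∏ i ∈ range (N - 2 * d), Complex.exp (Gf ((((2 * π * d / N : ℝ) : ℂ) - π) +
      ((2 * π / N : ℝ) : ℂ) * ((i : ℂ) + ((1 : ℝ) : ℂ)))) =
      ∏ i ∈ range (N - 2 * d), ((sj N (d + i) : ℝ) : ℂ) := by
    refine Finset.prod_congr rfl fun i hi => ?_
    rw [Finset.mem_range] at hi
    rw [sj_cos N d i (by omega)]
    apply hGP.2.2.2.1
    right
    have e1 : ((((2 * π * d / N : ℝ) : ℂ) - π) +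
      ((2 * π / N : ℝ) : ℂ) * ((i : ℂ) + ((1 : ℝ) : ℂ))) =
      ((2 * π * d / N - π + 2 * π / N * (i + 1) : ℝ) : ℂ) := by push_cast; ring
    rw [e1, Complex.ofReal_re, abs_lt]
    have hi' : ((i : ℝ) + 1) + 2 * d ≤ N := by exact_mod_cast (by omega : (i + 1) + 2 * d ≤ N)
    have hd' : (0 : ℝ) < d := by exact_mod_cast hd
    have e2 : 2 * π * d / N - π + 2 * π / N * (i + 1) = π * ((2 * d + 2 * (i + 1) - N) / N) := by
      field_simp
      ring
    rw [e2]
    constructor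
    · have : -1 < (2 * (d : ℝ) + 2 * (i + 1) - N) / N := by
        rw [lt_div_iff₀ hN]
        have : (0 : ℝ) ≤ i := Nat.cast_nonneg i
        linarith
      have := mul_lt_mul_of_pos_left this Real.pi_pos
      linarith
    · have : (2 * (d : ℝ) + 2 * (i + 1) - N) / N < 1 := by
        rw [div_lt_iff₀ hN]
        linarith
      have := mul_lt_mul_of_pos_left this Real.pi_pos
      linarith
  rw [h1]
  have h2 : N - 2 * d = (N - 1 - 2 * d) + 1 := by omega
  rw [h2, Finset.prod_range_succ, sj_last h]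
  unfold Mf
  push_cast
  rfl

lemma cos_add_cos' (ψ φ : ℂ) : -2 * Complex.cos ψ - 2 * Complex.cos φ =
    (-1) * ((2 * Complex.cos ((ψ - φ) / 2)) * (2 * Complex.cos ((ψ + φ) / 2))) := by
  have h := Complex.cos_add_cos ψ φ
  linear_combination (-2) * h

/-- the product `RR` -/
lemma RR_eq {N d : ℕ} (hN : 0 < N) (ψ : ℂ) : RR N d ψ = (-1) ^ d *
    ∏ i ∈ range (2 * d), (2 * Complex.cos (((ψ - ((2 * π * d / N : ℝ) : ℂ)) +
      ((2 * π / N : ℝ) : ℂ) * ((i : ℂ) + ((1 / 2 : ℝ) : ℂ))) / 2)) := by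
  have hN' : (N : ℂ) ≠ 0 := by exact_mod_cast hN.ne'
  have h2 : 2 * d = d + d := by ring
  rw [h2, Finset.prod_range_add, ← Finset.prod_range_reflect, ← Finset.prod_mul_distrib]
  unfold RR
  have h3 : ((-1 : ℂ)) ^ d = ∏ _j ∈ range d, (-1 : ℂ) := by
    rw [Finset.prod_const, Finset.card_range]
  rw [h3, ← Finset.prod_mul_distrib]
  refine Finset.prod_congr rfl fun j hj => ?_
  rw [Finset.mem_range] at hj
  rw [Complex.ofReal_cos, cos_add_cos']
  have e1 : ((d - 1 - j : ℕ) : ℂ) = d - 1 - j := by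
    have : d - 1 - j + 1 + j = d := by omega
    have h4 : ((d - 1 - j + 1 + j : ℕ) : ℂ) = d := by exact_mod_cast this
    push_cast at h4
    linear_combination h4
  rw [e1]
  unfold phi
  congr 3
  · congr 1
    push_cast
    field_simp
    ring
  · congr 2
    push_cast
    field_simp
    ring

lemma RR_exp (hGP : S_GP) {N d : ℕ} (hN : 0 < N) {ψ : ℂ} (hψ : 0 < ψ.im) :
    RR N d ψ = (-1) ^ d * Complex.exp (∑ i ∈ range (2 * d),
      Gf ((ψ - ((2 * π * d / N : ℝ) : ℂ)) + ((2 * π / N : ℝ) : ℂ) * ((i : ℂ) + ((1 / 2 : ℝ) : ℂ)))) := by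
  rw [RR_eq hN, Complex.exp_sum]
  congr 1
  refine Finset.prod_congr rfl fun i hi => ?_
  symm
  apply hGP.2.2.2.1
  left
  have e1 : (ψ - ((2 * π * d / N : ℝ) : ℂ)) +
      ((2 * π / N : ℝ) : ℂ) * ((i : ℂ) + ((1 / 2 : ℝ) : ℂ)) =
      ψ + ((-(2 * π * d / N) + 2 * π / N * (i + 1 / 2) : ℝ) : ℂ) := by
    push_cast; ring
  rw [e1, Complex.add_im, Complex.ofReal_im, add_zero]
  exact hψ

/-- the cosine in the denominator -/
lemma four_cos (u : ℂ) : (4 * Complex.cos (u / 2) ^ 2 : ℂ) =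
    Complex.exp (-(Complex.I * u)) * (1 + Complex.exp (Complex.I * u)) ^ 2 := by
  have h1 : (2 * Complex.cos (u / 2)) = Complex.exp (-(Complex.I * u / 2)) *
      (1 + Complex.exp (Complex.I * u)) := by
    rw [Complex.cos, mul_add, mul_one, ← Complex.exp_add]
    have e1 : u / 2 * Complex.I = -(Complex.I * u / 2) + Complex.I * u := by ring
    have e2 : -(u / 2) * Complex.I = -(Complex.I * u / 2) := by ring
    rw [e1, e2]
    ring
  have h2 : (4 * Complex.cos (u / 2) ^ 2 : ℂ) = (2 * Complex.cos (u / 2)) ^ 2 := by ring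
  rw [h2, h1, mul_pow, ← Complex.exp_nat_mul]
  congr 2
  push_cast
  ring

lemma Fint_eq (hGP : S_GP) {A N d : ℕ} (hN : 0 < N) {ψ : ℂ} (hψ : 0 < ψ.im) :
    Fint A N d ψ = (-1) ^ d * (Complex.exp (Complex.I * A * N * ψ ^ 2 / (4 * π) +
      (∑ i ∈ range (2 * d), Gf ((ψ - ((2 * π * d / N : ℝ) : ℂ)) +
        ((2 * π / N : ℝ) : ℂ) * ((i : ℂ) + ((1 / 2 : ℝ) : ℂ)))) + Complex.I * (N * (ψ + π))) *
      (2 * Complex.sin ψ) / (1 + Complex.exp (Complex.I * (N * (ψ + π)))) ^ 2) := by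
  unfold Fint
  rw [RR_exp hGP hN hψ, four_cos, Complex.exp_add, Complex.exp_add, Complex.exp_neg]
  have h1 := Complex.exp_ne_zero (Complex.I * (N * (ψ + π)))
  rw [div_mul_eq_div_div, div_inv_eq_mul]
  ring

end Pool.Agent.W466.FE
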