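import Pool.Agent.W466.FE.LocA

/-! # The local form of the summand: analysis -/

set_option autoImplicit false

namespace Pool.Agent.W466.FE

open Filter Finset EvenVol Pool.Agent.H112R4.VL Pool.Agent.W709.VC Pool.Agent.W707.FE
open scoped Real Topology

lemma conj_form (d : ℕ) (a b c s : ℂ) :
    (starRingEnd ℂ) ((-1) ^ d * (Complex.exp (a + b + c) * s / (1 + Complex.exp c) ^ 2)) =
    (-1) ^ d * (Complex.exp ((starRingEnd ℂ) a + (starRingEnd ℂ) b + (starRingEnd ℂ) c) *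
      (starRingEnd ℂ) s / (1 + Complex.exp ((starRingEnd ℂ) c)) ^ 2) := by
  simp only [map_mul, map_div₀, map_pow, map_neg, map_one, map_add, ← Complex.exp_conj]

lemma conjFint (hGP : S_GP) {A N d : ℕ} (hN : 0 < N) {χ : ℂ} (hχ : 0 < χ.im) :
    (starRingEnd ℂ) (Fint A N d (-(starRingEnd ℂ) χ)) =
    (-1) ^ d * (Complex.exp (-(Complex.I * A * N * χ ^ 2 / (4 * π)) +
      (∑ i ∈ range (2 * d), Gf ((χ - ((2 * π * d / N : ℝ) : ℂ)) +
        ((2 * π / N : ℝ) : ℂ) * ((i : ℂ) + ((1 / 2 : ℝ) : ℂ)))) + Complex.I * (N * (χ - π))) *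
      (-(2 * Complex.sin χ)) / (1 + Complex.exp (Complex.I * (N * (χ - π)))) ^ 2) := by
  have hN' : (N : ℂ) ≠ 0 := by exact_mod_cast hN.ne'
  have him : 0 < (-(starRingEnd ℂ) χ).im := by
    rw [Complex.neg_im, Complex.conj_im, neg_neg]; exact hχ
  rw [Fint_eq hGP hN him]
  have hexp : (starRingEnd ℂ) (Complex.I * (N * (-(starRingEnd ℂ) χ + π))) =
      Complex.I * (N * (χ - π)) := by
    simp only [map_mul, map_add, map_neg, Complex.conj_conj, Complex.conj_I, Complex.conj_ofReal,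
      map_natCast]
    ring
  have hq : (starRingEnd ℂ) (Complex.I * A * N * (-(starRingEnd ℂ) χ) ^ 2 / (4 * π)) =
      -(Complex.I * A * N * χ ^ 2 / (4 * π)) := by
    simp only [map_mul, map_neg, map_div₀, map_pow, Complex.conj_conj, Complex.conj_I,
      Complex.conj_ofReal, map_natCast, map_ofNat]
    ring
  have hs : (starRingEnd ℂ) (2 * Complex.sin (-(starRingEnd ℂ) χ)) = -(2 * Complex.sin χ) := by
    rw [map_mul, ← Complex.sin_conj, map_neg, Complex.conj_conj, Complex.sin_neg, map_ofNat]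
    ring
  have hsum : (starRingEnd ℂ) (∑ i ∈ range (2 * d), Gf ((-(starRingEnd ℂ) χ -
      ((2 * π * d / N : ℝ) : ℂ)) + ((2 * π / N : ℝ) : ℂ) * ((i : ℂ) + ((1 / 2 : ℝ) : ℂ)))) =
      ∑ i ∈ range (2 * d), Gf ((χ - ((2 * π * d / N : ℝ) : ℂ)) +
        ((2 * π / N : ℝ) : ℂ) * ((i : ℂ) + ((1 / 2 : ℝ) : ℂ))) := by
    rw [map_sum]
    rw [← Finset.sum_range_reflect (fun i => Gf ((χ - ((2 * π * d / N : ℝ) : ℂ)) +
        ((2 * π / N : ℝ) : ℂ) * ((i : ℂ) + ((1 / 2 : ℝ) : ℂ)))) (2 * d)]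
    refine Finset.sum_congr rfl fun i hi => ?_
    rw [Finset.mem_range] at hi
    have hmem : (-(starRingEnd ℂ) χ - ((2 * π * d / N : ℝ) : ℂ)) +
        ((2 * π / N : ℝ) : ℂ) * ((i : ℂ) + ((1 / 2 : ℝ) : ℂ)) ∈ Uf := by
      left
      have e1 : (-(starRingEnd ℂ) χ - ((2 * π * d / N : ℝ) : ℂ)) +
          ((2 * π / N : ℝ) : ℂ) * ((i : ℂ) + ((1 / 2 : ℝ) : ℂ)) =
          -(starRingEnd ℂ) χ + ((-(2 * π * d / N) + 2 * π / N * (i + 1 / 2) : ℝ) : ℂ) := by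
        push_cast; ring
      rw [e1, Complex.add_im, Complex.ofReal_im, add_zero]
      exact him
    rw [← hGP.2.2.2.2.1 _ hmem]
    congr 1
    have e2 : ((2 * d - 1 - i : ℕ) : ℂ) = 2 * d - 1 - i := by
      have h0 : 2 * d - 1 - i + 1 + i = 2 * d := by omega
      have h4 : ((2 * d - 1 - i + 1 + i : ℕ) : ℂ) = 2 * d := by exact_mod_cast h0
      push_cast at h4
      linear_combination h4
    rw [e2]
    simp only [map_mul, map_add, map_sub, map_neg, Complex.conj_conj, Complex.conj_ofReal,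
      map_natCast]
    push_cast
    field_simp
    ring
  rw [conj_form, hsum, hexp, hq, hs]

lemma ftc (hGP : S_GP) {z : ℂ} {L : ℝ} (hL : 0 ≤ L)
    (h : ∀ x : ℝ, 0 ≤ x → x ≤ L → z + x ∈ Uf) :
    ∫ x in (0:ℝ)..L, Gf (z + x) = Pf (z + L) - Pf z := by
  have h1 : ∀ x ∈ Set.uIcc (0:ℝ) L, z + (x : ℂ) ∈ Uf := by
    intro x hx
    rw [Set.uIcc_of_le hL] at hx
    exact h x hx.1 hx.2
  have h2 := intervalIntegral.integral_eq_sub_of_hasDerivAt (a := 0) (b := L)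
    (f := fun x : ℝ => Pf (z + x)) (f' := fun x : ℝ => Gf (z + x)) ?_ ?_
  · rw [h2]
    simp
  · intro x hx
    have h3 : HasDerivAt (fun w : ℂ => Pf (z + w)) (Gf (z + x)) (x : ℂ) :=
      (hGP.2.2.1 _ (h1 x hx)).comp_const_add z (x : ℂ)
    exact h3.comp_ofReal
  · apply ContinuousOn.intervalIntegrable
    exact hGP.2.1.continuousOn.comp (by fun_prop) h1

lemma cont_iter (hGP : S_GP) (k : ℕ) : ContinuousOn (iteratedDeriv k Gf) Uf := by
  rw [iteratedDeriv_eq_iterate]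
  exact ((hGP.2.1.analyticOnNhd hGP.1).iterated_deriv k).continuousOn

lemma em_use (hGP : S_GP) {θ : ℝ} {b : ℕ → ℝ} {K : ℕ} {C : ℝ}
    (hEM : ∀ (F : ℂ → ℂ) (z : ℂ) (n : ℕ) (ε σ B : ℝ), 0 < ε → 4 * ε ≤ σ →
    (∀ x : ℝ, 0 ≤ x → x ≤ n * ε → ∀ w : ℂ, ‖w - (z + x)‖ < σ →
      DifferentiableAt ℂ F w ∧ ‖F w‖ ≤ B) →
    ‖(∑ j ∈ Finset.range n, F (z + ε * (j + θ))) -
      (ε : ℂ)⁻¹ * (∫ x in (0:ℝ)..(n * ε), F (z + x)) -
      ∑ k ∈ Finset.range K, (b k : ℂ) * (ε : ℂ) ^ k *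
        (iteratedDeriv k F (z + n * ε) - iteratedDeriv k F z)‖ ≤ C * (n * B * (ε / σ) ^ (K + 1)))
    {Q : Set ℂ} (hQ : Q ⊆ Uf) {B : ℝ} (hB : ∀ w ∈ Q, ‖Gf w‖ ≤ B) {z z' : ℂ} {n : ℕ} {ε σ : ℝ}
    (hε : 0 < ε) (hσ : 4 * ε ≤ σ) (hz' : z + n * ε = z')
    (h : ∀ x : ℝ, 0 ≤ x → x ≤ n * ε → ∀ w : ℂ, ‖w - (z + x)‖ < σ → w ∈ Q) :
    ‖(∑ j ∈ Finset.range n, Gf (z + ε * (j + θ))) -
      ((ε : ℂ)⁻¹ * (Pf z' - Pf z) +
      ∑ k ∈ Finset.range K, (ε : ℂ) ^ k *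
        ((b k : ℂ) * (iteratedDeriv k Gf z' - iteratedDeriv k Gf z)))‖ ≤
      C * (n * B * (ε / σ) ^ (K + 1)) := by
  have hσ0 : 0 < σ := by linarith
  have h1 := hEM Gf z n ε σ B hε hσ (fun x hx0 hx1 w hw =>
    ⟨(hGP.2.1 w (hQ (h x hx0 hx1 w hw))).differentiableAt (hGP.1.mem_nhds (hQ (h x hx0 hx1 w hw))),
      hB w (h x hx0 hx1 w hw)⟩)
  have h2 : ∫ x in (0:ℝ)..(n * ε), Gf (z + x) = Pf z' - Pf z := by
    rw [ftc hGP (by positivity) (fun x hx0 hx1 => hQ (h x hx0 hx1 _ (by simpa using hσ0)))]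
    push_cast
    rw [hz']
  rw [h2, hz'] at h1
  have h3 : ∀ a b' c : ℂ, a - (b' + c) = a - b' - c := fun a b' c => by ring
  rw [h3]
  have h4 : ∑ k ∈ Finset.range K, (ε : ℂ) ^ k *
        ((b k : ℂ) * (iteratedDeriv k Gf z' - iteratedDeriv k Gf z)) =
      ∑ k ∈ Finset.range K, (b k : ℂ) * (ε : ℂ) ^ k *
        (iteratedDeriv k Gf z' - iteratedDeriv k Gf z) :=
    Finset.sum_congr rfl fun k _ => by ring
  rw [h4]
  exact h1

lemma mem_Uf_of_im {z : ℂ} (h : 0 < z.im) : z ∈ Uf := Or.inl h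

lemma mem_Uf_real {y : ℝ} (h1 : -π < y) (h2 : y < π) : (y : ℂ) ∈ Uf :=
  Or.inr (by rw [Complex.ofReal_re, abs_lt]; exact ⟨h1, h2⟩)

lemma HK_bound (hGP : S_GP) (b₁ b₂ : ℕ → ℝ) (K : ℕ) {α₀ b₀ η ρ : ℝ} (hη : 0 < η)
    (h1 : 0 < α₀ - ρ) (h2 : α₀ + ρ < π) : ∃ B : ℝ, 0 ≤ B ∧ ∀ ε α x y : ℝ, 0 ≤ ε → ε ≤ 1 →
    |α - α₀| ≤ ρ → |x| ≤ ρ → |y| ≤ ρ →
    ‖HK b₁ b₂ K ((ε : ℂ), (α : ℂ), -(b₀ : ℂ) + η * Complex.I + x,
      (b₀ : ℂ) + η * Complex.I + y)‖ ≤ B := by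
  let S : Set (ℝ × ℝ × ℝ × ℝ) := Set.Icc 0 1 ×ˢ Set.Icc (α₀ - ρ) (α₀ + ρ) ×ˢ
    Set.Icc (-ρ) ρ ×ˢ Set.Icc (-ρ) ρ
  have hS : IsCompact S := isCompact_Icc.prod (isCompact_Icc.prod (isCompact_Icc.prod isCompact_Icc))
  let f : ℝ × ℝ × ℝ × ℝ → ℂ := fun t => HK b₁ b₂ K ((t.1 : ℂ), (t.2.1 : ℂ),
    -(b₀ : ℂ) + η * Complex.I + t.2.2.1, (b₀ : ℂ) + η * Complex.I + t.2.2.2)
  have hg : ∀ (k : ℕ) (g : ℝ × ℝ × ℝ × ℝ → ℂ), Continuous g → (∀ t ∈ S, g t ∈ Uf) →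
      ContinuousOn (fun t => iteratedDeriv k Gf (g t)) S := fun k g hg hm =>
    (cont_iter hGP k).comp hg.continuousOn hm
  have hf : ContinuousOn f S := by
    have hα : ∀ t ∈ S, 0 < t.2.1 ∧ t.2.1 < π := by
      intro t ht
      have := ht.2.1
      exact ⟨lt_of_lt_of_le h1 this.1, lt_of_le_of_lt this.2 h2⟩
    show ContinuousOn (fun t : ℝ × ℝ × ℝ × ℝ => -4 * Complex.sin (-(b₀ : ℂ) + η * Complex.I +
      t.2.2.1) * Complex.sin ((b₀ : ℂ) + η * Complex.I + t.2.2.2) /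
      (2 * Complex.sin ((t.2.1 : ℂ) / 2)) ^ 2 *
      Complex.exp (∑ k ∈ range K, (t.1 : ℂ) ^ k * Wk b₁ b₂ k ((t.2.1 : ℂ),
    -(b₀ : ℂ) + η * Complex.I + t.2.2.1, (b₀ : ℂ) + η * Complex.I + t.2.2.2))) S
    refine ContinuousOn.mul (ContinuousOn.div (by fun_prop) (by fun_prop) ?_) ?_
    · intro t ht
      have h3 := hα t ht
      have h4 : Real.sin (t.2.1 / 2) ≠ 0 := by
        apply ne_of_gt
        apply Real.sin_pos_of_pos_of_lt_pi
        · linarith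
        · linarith [Real.pi_pos]
      have h5 : Complex.sin ((t.2.1 : ℂ) / 2) ≠ 0 := by
        have : ((t.2.1 : ℂ) / 2) = ((t.2.1 / 2 : ℝ) : ℂ) := by push_cast; rfl
        rw [this, ← Complex.ofReal_sin]
        exact_mod_cast h4
      exact pow_ne_zero _ (mul_ne_zero two_ne_zero h5)
    · refine Complex.continuous_exp.comp_continuousOn ?_
      refine continuousOn_finsetSum _ fun k _ => ?_
      refine ContinuousOn.mul (by fun_prop) ?_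
      show ContinuousOn (fun t : ℝ × ℝ × ℝ × ℝ =>
        2 * (b₁ k : ℂ) * (iteratedDeriv k Gf (π - (t.2.1 : ℂ)) - iteratedDeriv k Gf ((t.2.1 : ℂ) - π)) +
        b₂ k * (iteratedDeriv k Gf ((-(b₀ : ℂ) + η * Complex.I + t.2.2.1) + (t.2.1 : ℂ)) -
          iteratedDeriv k Gf ((-(b₀ : ℂ) + η * Complex.I + t.2.2.1) - (t.2.1 : ℂ))) +
        b₂ k * (iteratedDeriv k Gf (((b₀ : ℂ) + η * Complex.I + t.2.2.2) + (t.2.1 : ℂ)) -
          iteratedDeriv k Gf (((b₀ : ℂ) + η * Complex.I + t.2.2.2) - (t.2.1 : ℂ)))) S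
      refine ContinuousOn.add (ContinuousOn.add (continuousOn_const.mul ((hg k _ ?_ ?_).sub
        (hg k _ ?_ ?_))) (continuousOn_const.mul ((hg k _ ?_ ?_).sub
        (hg k _ ?_ ?_)))) (continuousOn_const.mul ((hg k _ ?_ ?_).sub
        (hg k _ ?_ ?_)))
      · fun_prop
      · intro t ht
        have h3 := hα t ht
        have : ((π : ℂ) - (t.2.1 : ℂ)) = ((π - t.2.1 : ℝ) : ℂ) := by push_cast; rfl
        rw [this]
        exact mem_Uf_real (by linarith [Real.pi_pos]) (by linarith)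
      · fun_prop
      · intro t ht
        have h3 := hα t ht
        have : ((t.2.1 : ℂ) - (π : ℂ)) = ((t.2.1 - π : ℝ) : ℂ) := by push_cast; rfl
        rw [this]
        exact mem_Uf_real (by linarith [Real.pi_pos]) (by linarith [Real.pi_pos])
      · fun_prop
      · intro t ht
        apply mem_Uf_of_im
        simpa using hη
      · fun_prop
      · intro t ht
        apply mem_Uf_of_im
        simpa using hη
      · fun_prop
      · intro t ht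
        apply mem_Uf_of_im
        simpa using hη
      · fun_prop
      · intro t ht
        apply mem_Uf_of_im
        simpa using hη
  obtain ⟨B, hB⟩ := hS.exists_bound_of_continuousOn hf
  refine ⟨max B 0, le_max_right _ _, ?_⟩
  intro ε α x y hε0 hε1 hα hx hy
  refine le_trans ?_ (le_max_left _ _)
  rw [abs_le] at hα hx hy
  exact hB (ε, α, x, y) ⟨⟨hε0, hε1⟩, ⟨by linarith [hα.1], by linarith [hα.2]⟩, hx, hy⟩

end Pool.Agent.W466.FE
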