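import Pool.Agent.W466.FE.LocB

/-! # The local form of the summand -/

set_option autoImplicit false

namespace Pool.Agent.W466.FE

open Filter Finset EvenVol Pool.Agent.H112R4.VL Pool.Agent.W709.VC Pool.Agent.W707.FE
open scoped Real Topology Nat

/-- the angle -/
noncomputable def al (N d : ℕ) : ℂ := ((2 * π * d / N : ℝ) : ℂ)

/-- the mesh -/
noncomputable def ep (N : ℕ) : ℂ := ((2 * π / N : ℝ) : ℂ)

/-- error of the factorials -/
noncomputable def E1 (b₁ : ℕ → ℝ) (K N d : ℕ) : ℂ :=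
  (∑ i ∈ range (N - 2 * d), Gf ((al N d - π) + ep N * ((i : ℂ) + ((1 : ℝ) : ℂ)))) -
    ((ep N)⁻¹ * (Pf (π - al N d) - Pf (al N d - π)) +
    ∑ k ∈ range K, ep N ^ k * ((b₁ k : ℂ) *
      (iteratedDeriv k Gf (π - al N d) - iteratedDeriv k Gf (al N d - π))))

/-- error of the product -/
noncomputable def E2 (b₂ : ℕ → ℝ) (K N d : ℕ) (ψ : ℂ) : ℂ :=
  (∑ i ∈ range (2 * d), Gf ((ψ - al N d) + ep N * ((i : ℂ) + ((1 / 2 : ℝ) : ℂ)))) -
    ((ep N)⁻¹ * (Pf (ψ + al N d) - Pf (ψ - al N d)) +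
    ∑ k ∈ range K, ep N ^ k * ((b₂ k : ℂ) *
      (iteratedDeriv k Gf (ψ + al N d) - iteratedDeriv k Gf (ψ - al N d))))

lemma main_id (hGP : S_GP) (A : ℕ) {N d : ℕ} (hd : 0 < d) (h : 2 * d < N) {ψ χ : ℂ}
    (hψ : 0 < ψ.im) (hχ : 0 < χ.im) (b₁ b₂ : ℕ → ℝ) (K : ℕ) :
    ((kk N d ^ 2 / (4 * π ^ 2) : ℝ) : ℂ) * (Fint A N d ψ *
      (starRingEnd ℂ) (Fint A N d (-(starRingEnd ℂ) χ))) =
    ((N : ℂ) / (2 * π)) ^ 2 * (Complex.exp ((N : ℂ) / (2 * π) * Wf A (al N d, ψ, χ)) *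
      HK b₁ b₂ K (ep N, al N d, ψ, χ)) *
    (Complex.exp (2 * E1 b₁ K N d + E2 b₂ K N d ψ + E2 b₂ K N d χ) /
      ((1 + Complex.exp (Complex.I * (N * (ψ + π)))) ^ 2 *
        (1 + Complex.exp (Complex.I * (N * (χ - π)))) ^ 2)) := by
  have hN : 0 < N := by omega
  have hNc : (N : ℂ) ≠ 0 := by exact_mod_cast hN.ne'
  have hπ : (π : ℂ) ≠ 0 := by exact_mod_cast Real.pi_ne_zero
  -- the sine does not vanish
  have hN' : (0 : ℝ) < N := by exact_mod_cast hN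
  have hs : (2 * Complex.sin (al N d / 2)) ≠ 0 := by
    have h1 : al N d / 2 = ((π * d / N : ℝ) : ℂ) := by
      unfold al; push_cast; ring
    rw [h1, ← Complex.ofReal_sin]
    have h2 : Real.sin (π * d / N) ≠ 0 := by
      apply ne_of_gt
      apply Real.sin_pos_of_pos_of_lt_pi
      · have : (0 : ℝ) < d := by exact_mod_cast hd
        positivity
      · rw [div_lt_iff₀ hN']
        have : (d : ℝ) < N := by exact_mod_cast (by omega : d < N)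
        exact mul_lt_mul_of_pos_left this Real.pi_pos
    exact mul_ne_zero two_ne_zero (by exact_mod_cast h2)
  -- the factorials
  have hM := Mf_exp hGP h hd
  have hk : ((kk N d : ℝ) : ℂ) * (2 * Complex.sin (al N d / 2)) =
      N * Complex.exp (∑ i ∈ range (N - 2 * d), Gf ((al N d - π) +
        ep N * ((i : ℂ) + ((1 : ℝ) : ℂ)))) := by
    rw [kk_eq h]
    unfold al ep
    rw [← hM]
    push_cast
    ring
  have hk' : ((kk N d ^ 2 / (4 * π ^ 2) : ℝ) : ℂ) = ((N : ℂ) / (2 * π)) ^ 2 *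
      (Complex.exp (∑ i ∈ range (N - 2 * d), Gf ((al N d - π) +
        ep N * ((i : ℂ) + ((1 : ℝ) : ℂ)))) ^ 2 / (2 * Complex.sin (al N d / 2)) ^ 2) := by
    have h1 : ((kk N d : ℝ) : ℂ) = N * Complex.exp (∑ i ∈ range (N - 2 * d), Gf ((al N d - π) +
        ep N * ((i : ℂ) + ((1 : ℝ) : ℂ)))) / (2 * Complex.sin (al N d / 2)) := by
      rw [eq_div_iff hs, hk]
    have h2 : ((kk N d ^ 2 / (4 * π ^ 2) : ℝ) : ℂ) = ((kk N d : ℝ) : ℂ) ^ 2 / (4 * (π : ℂ) ^ 2) := by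
      push_cast; rfl
    rw [h2, h1]
    generalize 2 * Complex.sin (al N d / 2) = s at *
    generalize Complex.exp (∑ i ∈ range (N - 2 * d), Gf ((al N d - π) +
        ep N * ((i : ℂ) + ((1 : ℝ) : ℂ)))) = X
    field_simp
    ring
  have hF := Fint_eq (A := A) (d := d) hGP hN hψ
  have hG := conjFint (A := A) (d := d) hGP hN hχ
  rw [hk', hF, hG]
  have hdd : ((-1 : ℂ)) ^ d * (-1) ^ d = 1 := by
    rw [← mul_pow]; simp
  have hsum : ∑ k ∈ range K, ep N ^ k * Wk b₁ b₂ k (al N d, ψ, χ) =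
      2 * (∑ k ∈ range K, ep N ^ k * ((b₁ k : ℂ) *
        (iteratedDeriv k Gf (π - al N d) - iteratedDeriv k Gf (al N d - π)))) +
      (∑ k ∈ range K, ep N ^ k * ((b₂ k : ℂ) *
        (iteratedDeriv k Gf (ψ + al N d) - iteratedDeriv k Gf (ψ - al N d)))) +
      (∑ k ∈ range K, ep N ^ k * ((b₂ k : ℂ) *
        (iteratedDeriv k Gf (χ + al N d) - iteratedDeriv k Gf (χ - al N d)))) := by
    rw [Finset.mul_sum, ← Finset.sum_add_distrib, ← Finset.sum_add_distrib]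
    refine Finset.sum_congr rfl fun k _ => ?_
    unfold Wk
    ring
  have hei : (ep N)⁻¹ = (N : ℂ) / (2 * π) := by
    unfold ep; push_cast; rw [inv_div]
  have hHK : HK b₁ b₂ K (ep N, al N d, ψ, χ) =
      -4 * Complex.sin ψ * Complex.sin χ / (2 * Complex.sin (al N d / 2)) ^ 2 *
      Complex.exp (∑ k ∈ range K, ep N ^ k * Wk b₁ b₂ k (al N d, ψ, χ)) := rfl
  rw [hHK]
  -- the exponents
  have hexp : Complex.exp (∑ i ∈ range (N - 2 * d), Gf ((al N d - π) +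
        ep N * ((i : ℂ) + ((1 : ℝ) : ℂ)))) ^ 2 *
      Complex.exp (Complex.I * A * N * ψ ^ 2 / (4 * π) +
      (∑ i ∈ range (2 * d), Gf ((ψ - ((2 * π * d / N : ℝ) : ℂ)) +
        ((2 * π / N : ℝ) : ℂ) * ((i : ℂ) + ((1 / 2 : ℝ) : ℂ)))) + Complex.I * (N * (ψ + π))) *
      Complex.exp (-(Complex.I * A * N * χ ^ 2 / (4 * π)) +
      (∑ i ∈ range (2 * d), Gf ((χ - ((2 * π * d / N : ℝ) : ℂ)) +
        ((2 * π / N : ℝ) : ℂ) * ((i : ℂ) + ((1 / 2 : ℝ) : ℂ)))) + Complex.I * (N * (χ - π))) =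
      Complex.exp ((N : ℂ) / (2 * π) * Wf A (al N d, ψ, χ)) *
      Complex.exp (∑ k ∈ range K, ep N ^ k * Wk b₁ b₂ k (al N d, ψ, χ)) *
      Complex.exp (2 * E1 b₁ K N d + E2 b₂ K N d ψ + E2 b₂ K N d χ) := by
    rw [← Complex.exp_nat_mul, ← Complex.exp_add, ← Complex.exp_add, ← Complex.exp_add,
      ← Complex.exp_add]
    congr 1
    rw [hsum]
    unfold E1 E2 Wf
    rw [hei]
    simp only [← show al N d = ((2 * π * d / N : ℝ) : ℂ) from rfl,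
      ← show ep N = ((2 * π / N : ℝ) : ℂ) from rfl]
    push_cast
    field_simp
    ring
  generalize Complex.exp (∑ i ∈ range (N - 2 * d), Gf ((al N d - π) +
        ep N * ((i : ℂ) + ((1 : ℝ) : ℂ)))) = x1 at *
  generalize Complex.exp (Complex.I * A * N * ψ ^ 2 / (4 * π) +
      (∑ i ∈ range (2 * d), Gf ((ψ - ((2 * π * d / N : ℝ) : ℂ)) +
        ((2 * π / N : ℝ) : ℂ) * ((i : ℂ) + ((1 / 2 : ℝ) : ℂ)))) + Complex.I * (N * (ψ + π))) =
        x2 at *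
  generalize Complex.exp (-(Complex.I * A * N * χ ^ 2 / (4 * π)) +
      (∑ i ∈ range (2 * d), Gf ((χ - ((2 * π * d / N : ℝ) : ℂ)) +
        ((2 * π / N : ℝ) : ℂ) * ((i : ℂ) + ((1 / 2 : ℝ) : ℂ)))) + Complex.I * (N * (χ - π))) =
        x3 at *
  generalize Complex.exp ((N : ℂ) / (2 * π) * Wf A (al N d, ψ, χ)) = y1 at *
  generalize Complex.exp (∑ k ∈ range K, ep N ^ k * Wk b₁ b₂ k (al N d, ψ, χ)) = y2 at *
  generalize Complex.exp (2 * E1 b₁ K N d + E2 b₂ K N d ψ + E2 b₂ K N d χ) = y3 at *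
  generalize (1 + Complex.exp (Complex.I * (N * (ψ + π)))) = p1 at *
  generalize (1 + Complex.exp (Complex.I * (N * (χ - π)))) = p2 at *
  generalize 2 * Complex.sin (al N d / 2) = s at *
  generalize ((-1 : ℂ)) ^ d = q at *
  calc ((N : ℂ) / (2 * π)) ^ 2 * (x1 ^ 2 / s ^ 2) * (q * (x2 * (2 * Complex.sin ψ) / p1 ^ 2) *
      (q * (x3 * -(2 * Complex.sin χ) / p2 ^ 2))) =
      ((N : ℂ) / (2 * π)) ^ 2 * (x1 ^ 2 * x2 * x3) * (q * q) / s ^ 2 *
      (-4 * Complex.sin ψ * Complex.sin χ) / (p1 ^ 2 * p2 ^ 2) := by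
        rw [mul_comm (p1 ^ 2) (p2 ^ 2)]; simp only [div_eq_mul_inv, mul_inv]; ring
    _ = _ := by
        rw [hdd, hexp]; simp only [div_eq_mul_inv, mul_inv]; ring

lemma R_bound {u s₁ s₂ : ℂ} {U s : ℝ} (hu : ‖u‖ ≤ U) (h1 : ‖s₁‖ ≤ s) (h2 : ‖s₂‖ ≤ s)
    (hs : s ≤ 1 / 2) :
    ‖Complex.exp u / ((1 + s₁) ^ 2 * (1 + s₂) ^ 2) - 1‖ ≤ 16 * (‖u‖ * Real.exp U) + 240 * s := by
  have hb : ∀ t : ℂ, ‖t‖ ≤ s → 1 / 4 ≤ ‖(1 + t) ^ 2‖ ∧ ‖(1 + t) ^ 2‖ ≤ 4 ∧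
      ‖(1 + t) ^ 2 - 1‖ ≤ 3 * s := by
    intro t ht
    have ha : 1 / 2 ≤ ‖1 + t‖ := by
      have := norm_sub_norm_le (1 : ℂ) (-t)
      rw [norm_neg, norm_one, sub_neg_eq_add] at this
      linarith
    have hc : ‖1 + t‖ ≤ 2 := by
      have := norm_add_le (1 : ℂ) t
      rw [norm_one] at this
      linarith
    refine ⟨?_, ?_, ?_⟩
    · rw [norm_pow]; nlinarith
    · rw [norm_pow]; nlinarith [norm_nonneg (1 + t)]
    · have e1 : (1 + t) ^ 2 - 1 = t * (2 + t) := by ring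
      rw [e1, norm_mul]
      have h3 : ‖2 + t‖ ≤ 3 := by
        have := norm_add_le (2 : ℂ) t
        have h4 : ‖(2 : ℂ)‖ = 2 := by simp
        rw [h4] at this
        linarith
      nlinarith [norm_nonneg t, norm_nonneg (2 + t)]
  obtain ⟨a1, a2, a3⟩ := hb s₁ h1
  obtain ⟨b1, b2, b3⟩ := hb s₂ h2
  set p := (1 + s₁) ^ 2
  set q := (1 + s₂) ^ 2
  have hp0 : p ≠ 0 := by intro h; rw [h, norm_zero] at a1; linarith
  have hq0 : q ≠ 0 := by intro h; rw [h, norm_zero] at b1; linarith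
  have hpq : 1 / 16 ≤ ‖p * q‖ := by
    rw [norm_mul]; nlinarith
  have hs0 : 0 ≤ s := (norm_nonneg _).trans h1
  have e1 : Complex.exp u / (p * q) - 1 =
      ((Complex.exp u - 1) - ((p - 1) * q + (q - 1))) / (p * q) := by
    field_simp
    ring
  have h5 : ‖Complex.exp u - 1‖ ≤ ‖u‖ * Real.exp U := by
    have h6 := Complex.norm_exp_sub_sum_le_norm_mul_exp u 1
    simp only [Finset.sum_range_one, pow_zero, Nat.factorial_zero, Nat.cast_one, div_one,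
      pow_one] at h6
    exact h6.trans (mul_le_mul_of_nonneg_left (Real.exp_le_exp.2 hu) (norm_nonneg _))
  have h7 : ‖(p - 1) * q + (q - 1)‖ ≤ 15 * s := by
    refine (norm_add_le _ _).trans ?_
    rw [norm_mul]
    nlinarith [norm_nonneg (p - 1), norm_nonneg q]
  rw [e1, norm_div, div_le_iff₀ (by linarith)]
  have h8 : ‖(Complex.exp u - 1) - ((p - 1) * q + (q - 1))‖ ≤ ‖u‖ * Real.exp U + 15 * s :=
    (norm_sub_le _ _).trans (add_le_add h5 h7)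
  have h9 : 0 ≤ ‖u‖ * Real.exp U := by positivity
  nlinarith

end Pool.Agent.W466.FE
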